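import Mathlib
import Pool.Agent.Run7.h51.EngDefs
import Pool.Agent.Run7.h51.EngCross

namespace Pool.Agent.Results.MP_a5aec7_al.MinNonEngelCross

/-- Every minimal non-Engel variety of associative rings is a Cross variety. -/
theorem result (Sg : Set Run7.h51.Eng.RTerm) (h : Run7.h51.Eng.MinimalNonEngel Sg) :
    Run7.h51.Eng.Cross Sg :=
  (Run7.h51.Eng.cross_of_min h).1

end Pool.Agent.Results.MP_a5aec7_al.MinNonEngelCross
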